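import Pool.Agent.Lib.MP_8fcf71_al.Limsup

/-!
# A finitely presented group with conjugacy growth rate smaller than its growth rate
-/

set_option autoImplicit false

namespace Pool.Agent.Results.MP_8fcf71_al.ConjugacyGrowthSmaller

open Filter Topology

universe u

/-- The word length of `g` with respect to `S ∪ S⁻¹`: the least `n` such that `g` is the product of
a list of `n` elements `x` with `x ∈ S` or `x⁻¹ ∈ S` (used for generating sets `S`). -/
noncomputable def wordLength {G : Type u} [Group G] (S : Set G) (g : G) : ℕ :=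
  sInf {n : ℕ | ∃ l : List G, (∀ x ∈ l, x ∈ S ∨ x⁻¹ ∈ S) ∧ l.prod = g ∧ l.length = n}

/-- `a_S(n)`, the number of elements of word length at most `n`. -/
noncomputable def ballCount {G : Type u} [Group G] (S : Set G) (n : ℕ) : ℕ :=
  Nat.card {g : G // wordLength S g ≤ n}

/-- The length of a conjugacy class: the least word length of its elements. -/
noncomputable def classLength {G : Type u} [Group G] (S : Set G) (c : ConjClasses G) : ℕ :=
  sInf {n : ℕ | ∃ h : G, ConjClasses.mk h = c ∧ wordLength S h = n}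

/-- `c_S(n)`, the number of conjugacy classes of length at most `n`. -/
noncomputable def classCount {G : Type u} [Group G] (S : Set G) (n : ℕ) : ℕ :=
  Nat.card {c : ConjClasses G // classLength S c ≤ n}

/-- The conjugacy growth rate `γ_S = limsup c_S(n)^(1/n)`. -/
noncomputable def conjGrowthRate {G : Type u} [Group G] (S : Set G) : ℝ :=
  limsup (fun n : ℕ => (classCount S n : ℝ) ^ (1 / (n : ℝ))) atTop

/-- Six relators on the letters `0 = a`, `1 = b`, `2 = c`, `3 = t`; they say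
`bc = cb`, `ac = ca`, `at = ta`, `ab = bca`, `tb = b²t`, `tc = c²t`. -/
def relators : Set (FreeGroup (Fin 4)) :=
  let a := FreeGroup.of (0 : Fin 4)
  let b := FreeGroup.of (1 : Fin 4)
  let c := FreeGroup.of (2 : Fin 4)
  let t := FreeGroup.of (3 : Fin 4)
  {b * c * (c * b)⁻¹, a * c * (c * a)⁻¹, a * t * (t * a)⁻¹, a * b * (b * c * a)⁻¹,
    t * b * (b ^ 2 * t)⁻¹, t * c * (c ^ 2 * t)⁻¹}

/-- The generating set `{a, t, bt, ct, bct}`. -/
def gens (R : Set (FreeGroup (Fin 4))) : Set (PresentedGroup R) :=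
  let a := PresentedGroup.of (rels := R) 0
  let b := PresentedGroup.of (rels := R) 1
  let c := PresentedGroup.of (rels := R) 2
  let t := PresentedGroup.of (rels := R) 3
  {a, t, b * t, c * t, b * c * t}

section words

open scoped Pointwise

variable {G : Type u} [Group G]

private theorem mem_ball_iff {S : Set G} (hS : Subgroup.closure S = ⊤) (g : G) (n : ℕ) :
    wordLength S g ≤ n ↔ g ∈ ({1} ∪ S ∪ S⁻¹ : Set G) ^ n := by
  have h1 : (1 : G) ∈ ({1} ∪ S ∪ S⁻¹ : Set G) := Or.inl (Or.inl rfl)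
  constructor
  · intro h
    have hne : {n : ℕ | ∃ l : List G, (∀ x ∈ l, x ∈ S ∨ x⁻¹ ∈ S) ∧ l.prod = g ∧
        l.length = n}.Nonempty := by
      have hg : g ∈ Submonoid.closure (S ∪ S⁻¹) := by
        rw [← Subgroup.closure_toSubmonoid, hS]
        trivial
      obtain ⟨l, hl, hp⟩ := Submonoid.exists_list_of_mem_closure hg
      exact ⟨l.length, l, hl, hp, rfl⟩
    obtain ⟨l, hl, hp, hlen⟩ := Nat.sInf_mem hne
    have key : ∀ l : List G, (∀ x ∈ l, x ∈ S ∨ x⁻¹ ∈ S) →
        l.prod ∈ ({1} ∪ S ∪ S⁻¹ : Set G) ^ l.length := by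
      intro l
      induction l with
      | nil => intro _; simp
      | cons x l ih =>
        intro hx
        rw [List.prod_cons, List.length_cons, pow_succ']
        refine Set.mul_mem_mul ?_ (ih fun y hy => hx y (List.mem_cons_of_mem _ hy))
        rcases hx x List.mem_cons_self with h | h
        · exact Or.inl (Or.inr h)
        · exact Or.inr h
    have h2 := key l hl
    rw [hp, hlen] at h2
    exact Set.pow_subset_pow_right h1 h h2
  · intro h
    have key : ∀ (n : ℕ) (g : G), g ∈ ({1} ∪ S ∪ S⁻¹ : Set G) ^ n →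
        ∃ l : List G, (∀ x ∈ l, x ∈ S ∨ x⁻¹ ∈ S) ∧ l.prod = g ∧ l.length ≤ n := by
      intro n
      induction n with
      | zero =>
        intro g hg
        rw [pow_zero, Set.mem_one] at hg
        exact ⟨[], by simp, by simp [hg], by simp⟩
      | succ n ih =>
        intro g hg
        rw [pow_succ', Set.mem_mul] at hg
        obtain ⟨x, hx, y, hy, rfl⟩ := hg
        obtain ⟨l, hl, hp, hlen⟩ := ih y hy
        rcases hx with (hx | hx) | hx
        · rw [Set.mem_singleton_iff] at hx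
          exact ⟨l, hl, by rw [hp, hx, one_mul], by omega⟩
        · refine ⟨x :: l, ?_, by rw [List.prod_cons, hp], by simp [hlen]⟩
          intro z hz
          rcases List.mem_cons.1 hz with rfl | hz
          · exact Or.inl hx
          · exact hl z hz
        · refine ⟨x :: l, ?_, by rw [List.prod_cons, hp], by simp [hlen]⟩
          intro z hz
          rcases List.mem_cons.1 hz with rfl | hz
          · exact Or.inr hx
          · exact hl z hz
    obtain ⟨l, hl, hp, hlen⟩ := key n g h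
    refine le_trans ?_ hlen
    unfold wordLength
    exact Nat.sInf_le ⟨l, hl, hp, rfl⟩

private theorem ballCount_eq {S : Set G} (hS : Subgroup.closure S = ⊤) (n : ℕ) :
    ballCount S n = (({1} ∪ S ∪ S⁻¹ : Set G) ^ n).ncard := by
  unfold ballCount
  rw [← Nat.card_coe_set_eq]
  refine Nat.card_congr (Equiv.subtypeEquivRight fun g => ?_)
  exact mem_ball_iff hS g n

private theorem classCount_eq {S : Set G} (hS : Subgroup.closure S = ⊤) (n : ℕ) :
    classCount S n = (ConjClasses.mk '' (({1} ∪ S ∪ S⁻¹ : Set G) ^ n)).ncard := by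
  unfold classCount
  rw [← Nat.card_coe_set_eq]
  refine Nat.card_congr (Equiv.subtypeEquivRight fun c => ?_)
  constructor
  · intro h
    have hne : {n : ℕ | ∃ h : G, ConjClasses.mk h = c ∧ wordLength S h = n}.Nonempty := by
      obtain ⟨x, hx⟩ := ConjClasses.exists_rep c
      exact ⟨_, x, hx, rfl⟩
    obtain ⟨x, hx, hl⟩ := Nat.sInf_mem hne
    refine ⟨x, (mem_ball_iff hS x n).1 ?_, hx⟩
    rw [hl]
    exact h
  · rintro ⟨x, hx, rfl⟩
    refine le_trans ?_ ((mem_ball_iff hS x n).2 hx)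
    unfold classLength
    exact Nat.sInf_le ⟨x, rfl, rfl⟩

end words

section growth

open scoped Pointwise
open Pool.Agent.MP_8fcf71_al

private theorem relators_eq : relators = relSet := by
  ext r
  simp only [relators, relSet, relList, Set.mem_insert_iff, Set.mem_singleton_iff,
    Set.mem_ofPred_eq, List.mem_cons, List.not_mem_nil, or_false, zpow_ofNat]

private theorem gens_eq : gens relSet = genS (gen 0) (gen 1) (gen 2) (gen 3) := by
  have key : ∀ x : Ex, x ∈ gens relSet ↔ x ∈ genS (gen 0) (gen 1) (gen 2) (gen 3) := by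
    intro x
    constructor
    · intro hx
      have h : x = gen 0 ∨ x = gen 3 ∨ x = gen 1 * gen 3 ∨ x = gen 2 * gen 3 ∨
        x = gen 1 * gen 2 * gen 3 := hx
      rcases h with h | h | h | h | h
      · exact Or.inl h
      · exact Or.inr ⟨(0, 0), by rw [h]; simp⟩
      · exact Or.inr ⟨(1, 0), by rw [h]; simp⟩
      · exact Or.inr ⟨(0, 1), by rw [h]; simp⟩
      · exact Or.inr ⟨(1, 1), by rw [h]; simp⟩
    · intro hx
      show x = gen 0 ∨ x = gen 3 ∨ x = gen 1 * gen 3 ∨ x = gen 2 * gen 3 ∨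
        x = gen 1 * gen 2 * gen 3
      rcases hx with h | ⟨⟨d, e⟩, h⟩
      · exact Or.inl h
      · simp only at h
        have hd : (d : ℕ) = 0 ∨ (d : ℕ) = 1 := by omega
        have he : (e : ℕ) = 0 ∨ (e : ℕ) = 1 := by omega
        rcases hd with hd | hd <;> rcases he with he | he <;> rw [hd, he] at h <;>
          simp only [Nat.cast_zero, Nat.cast_one, zpow_zero, zpow_one, one_mul, mul_one] at h
        · exact Or.inr (Or.inl h.symm)
        · exact Or.inr (Or.inr (Or.inr (Or.inl h.symm)))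
        · exact Or.inr (Or.inr (Or.inl h.symm))
        · exact Or.inr (Or.inr (Or.inr (Or.inr h.symm)))
  exact Set.ext key

/-- `a_S(n) ≤ (n+1)^2 (2n+1)^4 4^n` -/
private theorem ball_le (n : ℕ) :
    (({1} ∪ genS (gen 0) (gen 1) (gen 2) (gen 3) ∪
      (genS (gen 0) (gen 1) (gen 2) (gen 3))⁻¹ : Set Ex) ^ n).ncard ≤
      (n + 1) ^ 2 * (2 * n + 1) ^ 4 * 4 ^ n := by
  classical
  let I : Finset ((ℕ × ℕ) × (ℤ × ℤ × ℤ)) :=
    (Finset.range (n + 1) ×ˢ Finset.range (n + 1)) ×ˢ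
      (Finset.Icc (-(n : ℤ)) (n : ℤ) ×ˢ
        (Finset.Icc (-((n : ℤ) * 2 ^ n)) ((n : ℤ) * 2 ^ n) ×ˢ
          Finset.Icc (-((n : ℤ) ^ 2 * 2 ^ n)) ((n : ℤ) ^ 2 * 2 ^ n)))
  have hsub : (({1} ∪ genS (gen 0) (gen 1) (gen 2) (gen 3) ∪
      (genS (gen 0) (gen 1) (gen 2) (gen 3))⁻¹ : Set Ex) ^ n) ⊆
      (fun x : (ℕ × ℕ) × (ℤ × ℤ × ℤ) => nf (gen 0) (gen 1) (gen 2) (gen 3) x.1.1 x.2.1 x.2.2.1
        x.2.2.2 x.1.2) '' (I : Set ((ℕ × ℕ) × (ℤ × ℤ × ℤ))) := by
    intro g hg
    obtain ⟨p, q, r, hpr, hqr, hr, i, j, l, hi, hj, hl, rfl⟩ := ex_rels.ball_inv n g hg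
    have hrn : r ≤ n := by omega
    have h2 : (2 : ℤ) ^ r ≤ 2 ^ n := pow_le_pow_right₀ (by norm_num) hrn
    have hn0 : (0 : ℤ) ≤ n := by positivity
    rw [abs_le] at hi hj hl
    refine ⟨((p, q), (i, j, l)), ?_, rfl⟩
    simp only [I, Finset.coe_product, Set.mem_prod, Finset.mem_coe, Finset.mem_range,
      Finset.mem_Icc]
    have h3 : (n : ℤ) * 2 ^ r ≤ n * 2 ^ n := mul_le_mul_of_nonneg_left h2 hn0
    have h4 : (n : ℤ) ^ 2 * 2 ^ r ≤ n ^ 2 * 2 ^ n :=
      mul_le_mul_of_nonneg_left h2 (by positivity)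
    refine ⟨⟨by omega, by omega⟩, hi, ⟨by linarith, by linarith⟩, ⟨by linarith, by linarith⟩⟩
  refine (Set.ncard_le_ncard hsub ((Finset.finite_toSet _).image _)).trans ?_
  refine (Set.ncard_image_le (Finset.finite_toSet _)).trans ?_
  rw [Set.ncard_coe_finset]
  simp only [I, Finset.card_product, Finset.card_range, Int.card_Icc]
  have e1 : ((n : ℤ) + 1 - -(n : ℤ)).toNat = 2 * n + 1 := by omega
  have e2 : ((n : ℤ) * 2 ^ n + 1 - -((n : ℤ) * 2 ^ n)).toNat = 2 * (n * 2 ^ n) + 1 := by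
    have : ((n : ℤ) * 2 ^ n + 1 - -((n : ℤ) * 2 ^ n)) = ((2 * (n * 2 ^ n) + 1 : ℕ) : ℤ) := by
      push_cast; ring
    rw [this, Int.toNat_natCast]
  have e3 : ((n : ℤ) ^ 2 * 2 ^ n + 1 - -((n : ℤ) ^ 2 * 2 ^ n)).toNat =
      2 * (n ^ 2 * 2 ^ n) + 1 := by
    have : ((n : ℤ) ^ 2 * 2 ^ n + 1 - -((n : ℤ) ^ 2 * 2 ^ n)) =
        ((2 * (n ^ 2 * 2 ^ n) + 1 : ℕ) : ℤ) := by push_cast; ring
    rw [this, Int.toNat_natCast]
  rw [e1, e2, e3]
  have h1 : 1 ≤ 2 ^ n := Nat.one_le_two_pow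
  have f1 : 2 * (n * 2 ^ n) + 1 ≤ (2 * n + 1) * 2 ^ n := by nlinarith
  have f2 : 2 * (n ^ 2 * 2 ^ n) + 1 ≤ (2 * n + 1) ^ 2 * 2 ^ n := by
    nlinarith [Nat.zero_le (n * 2 ^ n), Nat.zero_le (n ^ 2 * 2 ^ n)]
  calc (n + 1) * (n + 1) * ((2 * n + 1) * ((2 * (n * 2 ^ n) + 1) * (2 * (n ^ 2 * 2 ^ n) + 1)))
      ≤ (n + 1) * (n + 1) * ((2 * n + 1) * (((2 * n + 1) * 2 ^ n) * ((2 * n + 1) ^ 2 * 2 ^ n))) :=
        Nat.mul_le_mul_left _ (Nat.mul_le_mul_left _ (Nat.mul_le_mul f1 f2))
    _ = (n + 1) ^ 2 * (2 * n + 1) ^ 4 * (2 ^ n * 2 ^ n) := by ring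
    _ = _ := by rw [← mul_pow]; norm_num

private theorem poly_lt {C : ℝ} (hC : 0 < C) (k : ℕ) {b r : ℝ} (hb : 0 < b) (hr : b < r) :
    ∀ᶠ n : ℕ in atTop, C * (n : ℝ) ^ k * b ^ n ≤ r ^ n := by
  have h0 : 1 < r / b := by rw [lt_div_iff₀ hb]; linarith
  have ht := tendsto_pow_const_div_const_pow_of_one_lt k h0
  have h1 : ∀ᶠ n : ℕ in atTop, (n : ℝ) ^ k / (r / b) ^ n < 1 / C :=
    ht.eventually (gt_mem_nhds (by positivity))
  filter_upwards [h1] with n hn
  have hpos : (0 : ℝ) < (r / b) ^ n := by positivity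
  rw [div_lt_iff₀ hpos] at hn
  have h2 : C * (n : ℝ) ^ k ≤ (r / b) ^ n := by
    have := mul_le_mul_of_nonneg_left hn.le hC.le
    rwa [← mul_assoc, mul_one_div_cancel hC.ne', one_mul] at this
  calc C * (n : ℝ) ^ k * b ^ n ≤ (r / b) ^ n * b ^ n :=
        mul_le_mul_of_nonneg_right h2 (by positivity)
    _ = r ^ n := by rw [← mul_pow, div_mul_cancel₀ _ hb.ne']

private theorem main (R : Set (FreeGroup (Fin 4))) (hR : R = relSet) :
    Subgroup.closure (gens R) = ⊤ ∧
      Tendsto (fun n : ℕ => (ballCount (gens R) n : ℝ) ^ (1 / (n : ℝ))) atTop (𝓝 4) ∧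
      conjGrowthRate (gens R) ≤ 3 := by
  subst hR
  have hcl : Subgroup.closure (gens relSet) = ⊤ := by
    rw [gens_eq]
    exact closure_genS
  refine ⟨hcl, ?_, ?_⟩
  · rw [tendsto_order]
    constructor
    · intro x hx
      filter_upwards [eventually_ge_atTop 1] with n hn
      refine hx.trans_le (le_root (by norm_num) (by omega) ?_)
      rw [ballCount_eq hcl, gens_eq]
      exact_mod_cast four_pow_le n
    · intro x hx
      have hx2 : (4 : ℝ) < (4 + x) / 2 := by linarith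
      filter_upwards [poly_lt (C := 4 * 81) (by norm_num) 6 (by norm_num : (0 : ℝ) < 4) hx2,
        eventually_ge_atTop 1] with n hn h1n
      have hn1 : (1 : ℝ) ≤ n := by exact_mod_cast h1n
      refine lt_of_le_of_lt (root_le (ρ := (4 + x) / 2) (by linarith) (by omega) ?_)
        (by linarith : (4 + x) / 2 < x)
      refine le_trans ?_ hn
      rw [ballCount_eq hcl, gens_eq]
      have h3 : ((n : ℝ) + 1) ^ 2 ≤ (2 * n) ^ 2 := pow_le_pow_left₀ (by positivity) (by linarith) 2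
      have h4 : (2 * (n : ℝ) + 1) ^ 4 ≤ (3 * n) ^ 4 :=
        pow_le_pow_left₀ (by positivity) (by linarith) 4
      calc ((((({1} ∪ genS (gen 0) (gen 1) (gen 2) (gen 3) ∪
              (genS (gen 0) (gen 1) (gen 2) (gen 3))⁻¹ : Set Ex) ^ n).ncard : ℕ)) : ℝ)
          ≤ (((n + 1) ^ 2 * (2 * n + 1) ^ 4 * 4 ^ n : ℕ) : ℝ) := by exact_mod_cast ball_le n
        _ = ((n : ℝ) + 1) ^ 2 * (2 * (n : ℝ) + 1) ^ 4 * 4 ^ n := by push_cast; ring
        _ ≤ (2 * n) ^ 2 * (3 * n) ^ 4 * 4 ^ n := by gcongr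
        _ = 4 * 81 * (n : ℝ) ^ 6 * 4 ^ n := by ring
  · have hall : ∀ x : ℝ, 3 < x → conjGrowthRate (gens relSet) ≤ x := by
      intro x hx
      unfold conjGrowthRate
      refine limsup_le_of_le ?_ ?_
      · exact (isBoundedUnder_of ⟨0, fun n => by positivity⟩).isCoboundedUnder_le
      · filter_upwards [poly_lt (C := 5 * 81) (by norm_num) 4 (by norm_num : (0 : ℝ) < 3) hx,
          eventually_ge_atTop 1] with n hn h1n
        have hn1 : (1 : ℝ) ≤ n := by exact_mod_cast h1n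
        refine root_le (by linarith) (by omega) (le_trans ?_ hn)
        rw [classCount_eq hcl, gens_eq]
        have h4 : (2 * (n : ℝ) + 1) ^ 4 ≤ (3 * n) ^ 4 :=
          pow_le_pow_left₀ (by positivity) (by linarith) 4
        calc (((ConjClasses.mk '' (({1} ∪ genS (gen 0) (gen 1) (gen 2) (gen 3) ∪
                (genS (gen 0) (gen 1) (gen 2) (gen 3))⁻¹ : Set Ex) ^ n)).ncard : ℕ) : ℝ)
            ≤ ((5 * (2 * n + 1) ^ 4 * 3 ^ n : ℕ) : ℝ) := by
              exact_mod_cast ex_rels.ncard_classes n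
          _ = 5 * (2 * (n : ℝ) + 1) ^ 4 * 3 ^ n := by push_cast; ring
          _ ≤ 5 * (3 * n) ^ 4 * 3 ^ n := by gcongr
          _ = 5 * 81 * (n : ℝ) ^ 4 * 3 ^ n := by ring
    exact le_of_forall_gt_imp_ge_of_dense hall

end growth

/-- **Theorem.** Let `G` be the group with generators `a, b, c, t` and the six relators above, and
let `S = {a, t, bt, ct, bct}`. Then `S` generates `G`, `α_S(G) = lim a_S(n)^(1/n) = 4` and
`γ_S(G) = limsup c_S(n)^(1/n) ≤ 3`. -/
theorem result :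
    relators.Finite ∧ (gens relators).Finite ∧ Subgroup.closure (gens relators) = ⊤ ∧
      Tendsto (fun n : ℕ => (ballCount (gens relators) n : ℝ) ^ (1 / (n : ℝ))) atTop (𝓝 4) ∧
      conjGrowthRate (gens relators) ≤ 3 := by
  refine ⟨by rw [relators_eq]; exact Pool.Agent.MP_8fcf71_al.relSet_finite, ?_,
    main relators relators_eq⟩
  unfold gens
  exact Set.toFinite _

end Pool.Agent.Results.MP_8fcf71_al.ConjugacyGrowthSmaller
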